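import Pool.Agent.helper15.XE.SpecS

/-! # xe:BL4 -/

set_option autoImplicit false

namespace Pool.Agent.XE

open Finset ArithmeticFunction MeasureTheory
open Pool.Agent.CH (nit DPb Tset)

/-- the product over the short indices -/
private lemma BL4_prod {R : ℕ} (hR : R ≤ 17) (M : Fin R → ℕ) (x β : ℝ) (hx : 1 ≤ x) (hβ : 1 ≤ β)
    (D : Finset (Fin R)) (k : ℕ) (hM : ∀ i ∈ D, x ≤ (M i : ℝ) → (M i : ℝ) ≤ β)
    (hk : (D.filter fun i => x ≤ (M i : ℝ)).card ≤ k) :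
    ∏ i ∈ D, (M i : ℝ) ≤ β ^ k * x ^ 17 := by
  classical
  rw [← Finset.prod_filter_mul_prod_filter_not D (fun i => x ≤ (M i : ℝ))]
  have h1 : ∏ i ∈ D.filter (fun i => x ≤ (M i : ℝ)), (M i : ℝ) ≤ β ^ k := by
    refine (Finset.prod_le_prod (g := fun _ => β) (fun i _ => Nat.cast_nonneg _)
      (fun i hi => ?_)).trans ?_
    · have h2 := Finset.mem_filter.1 hi
      exact hM i h2.1 h2.2
    · rw [Finset.prod_const]
      exact pow_le_pow_right₀ hβ hk
  have h2 : ∏ i ∈ D.filter (fun i => ¬ x ≤ (M i : ℝ)), (M i : ℝ) ≤ x ^ 17 := by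
    refine (Finset.prod_le_prod (g := fun _ => x) (fun i _ => Nat.cast_nonneg _)
      (fun i hi => ?_)).trans ?_
    · have h2 := Finset.mem_filter.1 hi
      exact (not_le.1 h2.2).le
    · rw [Finset.prod_const]
      refine pow_le_pow_right₀ hx ?_
      refine (Finset.card_le_univ _).trans ?_
      rw [Fintype.card_fin]
      exact hR
  exact mul_le_mul h1 h2 (Finset.prod_nonneg (fun i _ => Nat.cast_nonneg _)) (by positivity)

private lemma BL4_comb {R : ℕ} (hR : R ≤ 17) (M : Fin R → ℕ) (c : Fin R) (x : ℝ) (hx : 2 ^ 21 ≤ x)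
    (h1 : ∀ i, 1 ≤ M i) (hP : x ^ 3000 ≤ 2 ^ 21 * ∏ i, (M i : ℝ))
    (hc : (M c : ℝ) ≤ x ^ 1010) (hle : ∀ i, (M i : ℝ) ≤ x ^ 80 * M c)
    (hlong : (univ.filter fun i : Fin R => x ≤ (M i : ℝ)).card ≤ 4) :
    ∃ b : Fin R, b ≠ c ∧ ∏ i, (M i : ℝ) = M c * (M b * ∏ i ∈ (univ.erase c).erase b, (M i : ℝ)) ∧
      x ^ 2743 ≤ 2 ^ 21 * (M c : ℝ) ^ 4 ∧ x ^ 2983 ≤ 2 ^ 21 * ((M c : ℝ) * (M b : ℝ) ^ 3) := by
  classical
  have hx1 : (1 : ℝ) ≤ x := by
    have : (1 : ℝ) ≤ 2 ^ 21 := by norm_num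
    linarith
  have hx0 : (0 : ℝ) < x := by linarith
  have hMr : ∀ i, (1 : ℝ) ≤ M i := fun i => by exact_mod_cast h1 i
  have hsplit : ∏ i, (M i : ℝ) = M c * ∏ i ∈ univ.erase c, (M i : ℝ) :=
    (Finset.mul_prod_erase univ (fun i => (M i : ℝ)) (Finset.mem_univ c)).symm
  have hdiv : ∀ B : ℝ, x ^ 3000 ≤ 2 ^ 21 * (B * x ^ 17) → x ^ 2983 ≤ 2 ^ 21 * B := by
    intro B hB
    have h2 : x ^ 3000 = x ^ 2983 * x ^ 17 := by rw [← pow_add]
    rw [h2, ← mul_assoc] at hB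
    exact le_of_mul_le_mul_right hB (by positivity)
  -- c is long
  have hcS : x ≤ (M c : ℝ) := by
    by_contra hcon
    rw [not_le] at hcon
    have h2 : x ^ 2983 ≤ 2 ^ 21 * (x ^ 81) ^ 4 := by
      apply hdiv
      refine hP.trans (mul_le_mul_of_nonneg_left ?_ (by norm_num))
      refine BL4_prod hR M x (x ^ 81) hx1 (one_le_pow₀ hx1) univ 4 (fun i _ _ => ?_) hlong
      refine (hle i).trans ?_
      have h3 : x ^ 81 = x ^ 80 * x := by ring
      rw [h3]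
      exact mul_le_mul_of_nonneg_left hcon.le (by positivity)
    have h3 : 2 ^ 21 * (x ^ 81) ^ 4 ≤ x * (x ^ 81) ^ 4 := mul_le_mul_of_nonneg_right hx (by positivity)
    have h4 : x * (x ^ 81) ^ 4 = x ^ 325 := by ring
    have h5 : x ^ 325 < x ^ 2983 := pow_lt_pow_right₀ (by
      have : (1 : ℝ) < 2 ^ 21 := by norm_num
      linarith) (by norm_num)
    linarith
  have hcard : ((univ.erase c).filter (fun i => x ≤ (M i : ℝ))).card ≤ 3 := by
    have h2 : (univ.erase c).filter (fun i => x ≤ (M i : ℝ)) =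
        (univ.filter (fun i => x ≤ (M i : ℝ))).erase c := by
      ext i
      simp only [Finset.mem_filter, Finset.mem_erase, Finset.mem_univ, true_and, and_true]
    rw [h2, Finset.card_erase_of_mem (Finset.mem_filter.2 ⟨Finset.mem_univ c, hcS⟩)]
    omega
  have hF3 : x ^ 2743 ≤ 2 ^ 21 * (M c : ℝ) ^ 4 := by
    have h2 : x ^ 2983 ≤ 2 ^ 21 * ((M c : ℝ) * (x ^ 80 * M c) ^ 3) := by
      apply hdiv
      refine hP.trans (mul_le_mul_of_nonneg_left ?_ (by norm_num))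
      rw [hsplit, mul_assoc]
      refine mul_le_mul_of_nonneg_left ?_ (Nat.cast_nonneg _)
      refine BL4_prod hR M x (x ^ 80 * M c) hx1 ?_ (univ.erase c) 3 (fun i _ _ => hle i) hcard
      have h3 : (1 : ℝ) ≤ x ^ 80 := one_le_pow₀ hx1
      have h4 := hMr c
      nlinarith
    have h3 : x ^ 2983 = x ^ 2743 * x ^ 240 := by rw [← pow_add]
    have h4 : 2 ^ 21 * ((M c : ℝ) * (x ^ 80 * M c) ^ 3) = 2 ^ 21 * (M c : ℝ) ^ 4 * x ^ 240 := by ring
    rw [h3, h4] at h2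
    exact le_of_mul_le_mul_right h2 (by positivity)
  -- the second longest
  have hne : (univ.erase c).Nonempty := by
    rw [Finset.nonempty_iff_ne_empty]
    intro hem
    rw [hsplit, hem, Finset.prod_empty, mul_one] at hP
    have h2 : x ^ 3000 ≤ 2 ^ 21 * x ^ 1010 := hP.trans (mul_le_mul_of_nonneg_left hc (by norm_num))
    have h3 : x ^ 3000 = x ^ 1990 * x ^ 1010 := by rw [← pow_add]
    rw [h3] at h2
    have h4 : x ^ 1990 ≤ 2 ^ 21 := le_of_mul_le_mul_right h2 (by positivity)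
    have h5 : x ^ 2 ≤ x ^ 1990 := pow_le_pow_right₀ hx1 (by norm_num)
    nlinarith
  obtain ⟨b, hb, hbmax⟩ := Finset.exists_max_image (univ.erase c) M hne
  refine ⟨b, Finset.ne_of_mem_erase hb, ?_, hF3, ?_⟩
  · rw [hsplit, Finset.mul_prod_erase (univ.erase c) (fun i => (M i : ℝ)) hb]
  · apply hdiv
    refine hP.trans (mul_le_mul_of_nonneg_left ?_ (by norm_num))
    rw [hsplit, mul_assoc]
    refine mul_le_mul_of_nonneg_left ?_ (Nat.cast_nonneg _)
    exact BL4_prod hR M x (M b) hx1 (hMr b) (univ.erase c) 3 (fun i hi _ => by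
      exact_mod_cast hbmax i hi) hcard

/-- numerical part -/
private lemma BL4_num (x Mc Mb MD : ℝ) (hx : 2 ^ 21 ≤ x) (h1 : 1 ≤ Mc) (h2 : 1 ≤ Mb) (h3 : 1 ≤ MD)
    (hP : x ^ 3000 ≤ 2 ^ 21 * (Mc * (Mb * MD))) (hc : Mc ≤ x ^ 1010) (hb : Mb ≤ x ^ 80 * Mc)
    (hF3 : x ^ 2743 ≤ 2 ^ 21 * Mc ^ 4) (hF4 : x ^ 2983 ≤ 2 ^ 21 * (Mc * Mb ^ 3)) :
    x ≤ Mb ∧ x ≤ MD ∧
      x ^ 100 * (x ^ 1010 * ((x ^ 1010 + Mb) * Mb * ((x ^ 1010 + MD) * MD))) ≤
        (Mc * (Mb * MD)) ^ 2 := by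
  have hx1 : (1 : ℝ) ≤ x := by
    have : (1 : ℝ) ≤ 2 ^ 21 := by norm_num
    linarith
  have hx1' : (1 : ℝ) < x := by
    have : (1 : ℝ) < 2 ^ 21 := by norm_num
    linarith
  have hx0 : (0 : ℝ) < x := by linarith
  have hx4 : (4 : ℝ) ≤ x := by
    have : (4 : ℝ) ≤ 2 ^ 21 := by norm_num
    linarith
  have hMc0 : 0 < Mc := by linarith
  have hMb0 : 0 < Mb := by linarith
  have hMD0 : 0 < MD := by linarith
  -- Mb
  have hMb : x ≤ Mb := by
    by_contra hcon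
    rw [not_le] at hcon
    have h4 : Mb ^ 3 ≤ x ^ 3 := pow_le_pow_left₀ (by linarith) hcon.le 3
    have h5 : x ^ 2983 ≤ x * (x ^ 1010 * x ^ 3) := by
      refine hF4.trans (mul_le_mul hx (mul_le_mul hc h4 (by positivity) (by positivity))
        (by positivity) hx0.le)
    have h6 : x * (x ^ 1010 * x ^ 3) = x ^ 1014 := by ring
    rw [h6] at h5
    have h7 : x ^ 1014 < x ^ 2983 := pow_lt_pow_right₀ hx1' (by norm_num)
    linarith
  -- E1
  have hE1 : x ^ 2919 ≤ Mc ^ 2 * MD := by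
    have h4 : x ^ 3000 ≤ x * (Mc * (x ^ 80 * Mc * MD)) := by
      refine hP.trans (mul_le_mul hx ?_ (by positivity) hx0.le)
      refine mul_le_mul_of_nonneg_left ?_ hMc0.le
      exact mul_le_mul_of_nonneg_right hb hMD0.le
    have h5 : x ^ 3000 = x ^ 2919 * x ^ 81 := by rw [← pow_add]
    have h6 : x * (Mc * (x ^ 80 * Mc * MD)) = Mc ^ 2 * MD * x ^ 81 := by ring
    rw [h5, h6] at h4
    exact le_of_mul_le_mul_right h4 (by positivity)
  have hMD : x ≤ MD := by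
    have h4 : Mc ^ 2 ≤ (x ^ 1010) ^ 2 := pow_le_pow_left₀ hMc0.le hc 2
    have h5 : x ^ 2919 ≤ (x ^ 1010) ^ 2 * MD := hE1.trans (mul_le_mul_of_nonneg_right h4 hMD0.le)
    have h6 : x ^ 2919 = (x ^ 1010) ^ 2 * x ^ 899 := by
      rw [← pow_mul, ← pow_add]
    rw [h6] at h5
    have h7 : x ^ 899 ≤ MD := le_of_mul_le_mul_left h5 (by positivity)
    exact (le_self_pow₀ hx1 (by norm_num)).trans h7
  refine ⟨hMb, hMD, ?_⟩
  -- Mc
  have hMc : x ^ 685 ≤ Mc := by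
    have h4 : x ^ 2743 ≤ x * Mc ^ 4 := hF3.trans (mul_le_mul_of_nonneg_right hx (by positivity))
    have h5 : x ^ 2743 = x * x ^ 2742 := by ring
    rw [h5] at h4
    have h6 : x ^ 2742 ≤ Mc ^ 4 := le_of_mul_le_mul_left h4 hx0
    have h7 : (x ^ 685) ^ 4 ≤ x ^ 2742 := by
      rw [← pow_mul]
      exact pow_le_pow_right₀ hx1 (by norm_num)
    exact le_of_pow_le_pow_left₀ (by norm_num) hMc0.le (h7.trans h6)
  have hkey : x ^ 2136 ≤ Mc ^ 2 * Mb := by
    have h4 : (x ^ 2136) ^ 12 ≤ (Mc ^ 2 * Mb) ^ 12 := by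
      have h5 : (x ^ 2743) ^ 5 ≤ (2 ^ 21 * Mc ^ 4) ^ 5 := pow_le_pow_left₀ (by positivity) hF3 5
      have h6 : (x ^ 2983) ^ 4 ≤ (2 ^ 21 * (Mc * Mb ^ 3)) ^ 4 :=
        pow_le_pow_left₀ (by positivity) hF4 4
      have h7 := mul_le_mul h5 h6 (by positivity) (by positivity)
      have h8 : (x ^ 2743) ^ 5 * (x ^ 2983) ^ 4 = x ^ 9 * x ^ 25638 := by
        rw [← pow_mul, ← pow_mul, ← pow_add, ← pow_add]
      have h9 : (2 ^ 21 * Mc ^ 4) ^ 5 * (2 ^ 21 * (Mc * Mb ^ 3)) ^ 4 = (2 ^ 21) ^ 9 * (Mc ^ 2 * Mb) ^ 12 := by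
        ring
      rw [h8, h9] at h7
      have h10 : ((2 : ℝ) ^ 21) ^ 9 ≤ x ^ 9 := pow_le_pow_left₀ (by norm_num) hx 9
      have h11 : x ^ 9 * x ^ 25638 ≤ x ^ 9 * (Mc ^ 2 * Mb) ^ 12 :=
        h7.trans (mul_le_mul_of_nonneg_right h10 (by positivity))
      have h12 : x ^ 25638 ≤ (Mc ^ 2 * Mb) ^ 12 := le_of_mul_le_mul_left h11 (by positivity)
      refine le_trans ?_ h12
      rw [← pow_mul]
      exact pow_le_pow_right₀ hx1 (by norm_num)
    exact le_of_pow_le_pow_left₀ (by norm_num) (by positivity) h4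
  -- the four terms
  have g1 : 4 * x ^ 3130 ≤ Mc ^ 2 * Mb * MD := by
    have h4 : x ^ 3000 ≤ x * (Mc * (Mb * MD)) := hP.trans (mul_le_mul_of_nonneg_right hx (by positivity))
    have h5 : x ^ 3000 = x * x ^ 2999 := by ring
    rw [h5] at h4
    have h6 : x ^ 2999 ≤ Mc * (Mb * MD) := le_of_mul_le_mul_left h4 hx0
    have h7 : x ^ 685 * x ^ 2999 ≤ Mc * (Mc * (Mb * MD)) := mul_le_mul hMc h6 (by positivity) hMc0.le
    have h8 : 4 * x ^ 3130 ≤ x * x ^ 3130 := mul_le_mul_of_nonneg_right hx4 (by positivity)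
    have h9 : x * x ^ 3130 ≤ x ^ 685 * x ^ 2999 := by
      rw [← pow_add, ← pow_succ']
      exact pow_le_pow_right₀ hx1 (by norm_num)
    have h10 : Mc * (Mc * (Mb * MD)) = Mc ^ 2 * Mb * MD := by ring
    linarith
  have g2 : 4 * x ^ 2120 ≤ Mc ^ 2 * Mb := by
    have h8 : 4 * x ^ 2120 ≤ x * x ^ 2120 := mul_le_mul_of_nonneg_right hx4 (by positivity)
    have h9 : x * x ^ 2120 ≤ x ^ 2136 := by
      rw [← pow_succ']
      exact pow_le_pow_right₀ hx1 (by norm_num)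
    linarith
  have g3 : 4 * x ^ 2120 ≤ Mc ^ 2 * MD := by
    have h8 : 4 * x ^ 2120 ≤ x * x ^ 2120 := mul_le_mul_of_nonneg_right hx4 (by positivity)
    have h9 : x * x ^ 2120 ≤ x ^ 2919 := by
      rw [← pow_succ']
      exact pow_le_pow_right₀ hx1 (by norm_num)
    linarith
  have g4 : 4 * x ^ 1110 ≤ Mc ^ 2 := by
    have h8 : 4 * x ^ 1110 ≤ x * x ^ 1110 := mul_le_mul_of_nonneg_right hx4 (by positivity)
    have h9 : x * x ^ 1110 ≤ (x ^ 685) ^ 2 := by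
      rw [← pow_succ', ← pow_mul]
      exact pow_le_pow_right₀ hx1 (by norm_num)
    have h10 : (x ^ 685) ^ 2 ≤ Mc ^ 2 := pow_le_pow_left₀ (by positivity) hMc 2
    linarith
  have g2' : 4 * x ^ 2120 * MD ≤ Mc ^ 2 * Mb * MD := mul_le_mul_of_nonneg_right g2 hMD0.le
  have g3' : 4 * x ^ 2120 * Mb ≤ Mc ^ 2 * MD * Mb := mul_le_mul_of_nonneg_right g3 hMb0.le
  have g4' : 4 * x ^ 1110 * (Mb * MD) ≤ Mc ^ 2 * (Mb * MD) := mul_le_mul_of_nonneg_right g4 (by positivity)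
  have e1 : x ^ 100 * (x ^ 1010 * ((x ^ 1010 + Mb) * Mb * ((x ^ 1010 + MD) * MD))) =
      (x ^ 3130 + x ^ 2120 * MD + x ^ 2120 * Mb + x ^ 1110 * (Mb * MD)) * (Mb * MD) := by ring
  have e2 : (Mc * (Mb * MD)) ^ 2 = (Mc ^ 2 * Mb * MD) * (Mb * MD) := by ring
  rw [e1, e2]
  refine mul_le_mul_of_nonneg_right ?_ (by positivity)
  have e3 : Mc ^ 2 * MD * Mb = Mc ^ 2 * Mb * MD := by ring
  have e4 : Mc ^ 2 * (Mb * MD) = Mc ^ 2 * Mb * MD := by ring
  rw [e3] at g3'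
  rw [e4] at g4'
  linarith

/-- Cauchy-Schwarz -/
private lemma BL4_cs (f g : ℝ → ℝ) (hf : Continuous f) (hg : Continuous g) (T A B : ℝ) (hT : 0 ≤ T)
    (hA : 0 < A) (hB : 0 < B) (h1 : ∫ t in (-T)..T, f t ^ 2 ≤ A) (h2 : ∫ t in (-T)..T, g t ^ 2 ≤ B) :
    ∫ t in (-T)..T, f t * g t ≤ √(A * B) := by
  have hle : -T ≤ T := by linarith
  set l : ℝ := √(B / A) with hl
  have hl0 : 0 < l := Real.sqrt_pos.2 (div_pos hB hA)
  have hl2 : l ^ 2 = B / A := Real.sq_sqrt (div_pos hB hA).le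
  have h3 : ∫ t in (-T)..T, f t * g t ≤ ∫ t in (-T)..T, (l / 2 * f t ^ 2 + 1 / (2 * l) * g t ^ 2) := by
    apply intervalIntegral.integral_mono_on hle
    · exact (hf.mul hg).intervalIntegrable _ _
    · exact ((continuous_const.mul (hf.pow 2)).add (continuous_const.mul (hg.pow 2))).intervalIntegrable _ _
    · intro t _
      have h4 : 0 ≤ (l * f t - g t) ^ 2 := sq_nonneg _
      have h5 : l / 2 * f t ^ 2 + 1 / (2 * l) * g t ^ 2 - f t * g t = (l * f t - g t) ^ 2 / (2 * l) := by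
        field_simp
        ring
      have h6 : 0 ≤ (l * f t - g t) ^ 2 / (2 * l) := by positivity
      linarith
  have i1 : IntervalIntegrable (fun t => l / 2 * f t ^ 2) volume (-T) T :=
    (continuous_const.mul (hf.pow 2)).intervalIntegrable _ _
  have i2 : IntervalIntegrable (fun t => 1 / (2 * l) * g t ^ 2) volume (-T) T :=
    (continuous_const.mul (hg.pow 2)).intervalIntegrable _ _
  rw [intervalIntegral.integral_add i1 i2,
    intervalIntegral.integral_const_mul, intervalIntegral.integral_const_mul] at h3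
  have h4 : l / 2 * (∫ t in (-T)..T, f t ^ 2) ≤ l / 2 * A := mul_le_mul_of_nonneg_left h1 (by positivity)
  have h5 : 1 / (2 * l) * (∫ t in (-T)..T, g t ^ 2) ≤ 1 / (2 * l) * B :=
    mul_le_mul_of_nonneg_left h2 (by positivity)
  have h6 : √(A * B) = l * A := by
    rw [hl, Real.sqrt_eq_iff_mul_self_eq (by positivity) (by positivity)]
    have h7 : √(B / A) * A * (√(B / A) * A) = (√(B / A)) ^ 2 * A ^ 2 := by ring
    rw [h7, Real.sq_sqrt (div_pos hB hA).le]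
    field_simp
  have h8 : 1 / (2 * l) * B = l / 2 * A := by
    have h9 : B = l ^ 2 * A := by
      rw [hl2]
      field_simp
    rw [h9]
    field_simp
  rw [h6]
  linarith

private lemma BL4_find (W y : ℝ) (hW : W ≤ y) (J : ℕ) (hJ : y ≤ W * 2 ^ (J + 1)) :
    ∃ j, j < J + 1 ∧ W * 2 ^ j ≤ y ∧ y ≤ W * 2 ^ (j + 1) := by
  induction J with
  | zero => exact ⟨0, by omega, by simpa using hW, hJ⟩
  | succ J ih =>
    rcases le_or_gt y (W * 2 ^ (J + 1)) with h | h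
    · obtain ⟨j, h1, h2, h3⟩ := ih h
      exact ⟨j, by omega, h2, h3⟩
    · exact ⟨J + 1, by omega, h.le, hJ⟩

private lemma BL4_ind (H : ℝ → ℝ) (hH : Continuous H) (T : ℝ) :
    Integrable ((Set.Icc (-T) T).indicator H) :=
  (hH.integrableOn_Icc).integrable_indicator measurableSet_Icc

private lemma BL4_indint (H : ℝ → ℝ) (T : ℝ) (hT : 0 ≤ T) :
    ∫ t, (Set.Icc (-T) T).indicator H t = ∫ t in (-T)..T, H t := by
  rw [integral_indicator measurableSet_Icc, intervalIntegral.integral_of_le (by linarith),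
    integral_Icc_eq_integral_Ioc]

/-- the dyadic decomposition of the weight -/
private lemma BL4_int (W T₁ Lc Mc : ℝ) (hW : 1 ≤ W) (hLc : 0 ≤ Lc) (hMc : 0 ≤ Mc) (hT1 : 0 ≤ T₁)
    (J : ℕ) (hJ : T₁ ≤ W * 2 ^ (J + 1))
    (F H : ℝ → ℝ) (hF : Continuous F) (hH : Continuous H) (hH0 : ∀ t, 0 ≤ H t)
    (hFH : ∀ t, W ≤ |t| → |t| ≤ T₁ → F t ≤ Lc * (Mc / |t| + √|t|) * H t) :
    ∫ t in {t : ℝ | W ≤ |t| ∧ |t| ≤ T₁}, F t ≤
      Lc * (∑ j ∈ range (J + 1), (Mc / (W * 2 ^ j)) *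
        ∫ t in (-(W * 2 ^ (j + 1)))..(W * 2 ^ (j + 1)), H t) +
      Lc * (√T₁ * ∫ t in (-T₁)..T₁, H t) := by
  have hW0 : 0 < W := by linarith
  set S : Set ℝ := {t : ℝ | W ≤ |t| ∧ |t| ≤ T₁} with hS
  have hSm : MeasurableSet S := by
    apply MeasurableSet.inter
    · exact (isClosed_le continuous_const continuous_abs).measurableSet
    · exact (isClosed_le continuous_abs continuous_const).measurableSet
  have hSsub : S ⊆ Set.Icc (-T₁) T₁ := fun t ht => abs_le.1 ht.2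
  set g : ℝ → ℝ := fun t => Lc * (∑ j ∈ range (J + 1), (Mc / (W * 2 ^ j)) *
      (Set.Icc (-(W * 2 ^ (j + 1))) (W * 2 ^ (j + 1))).indicator H t) +
      Lc * (√T₁ * (Set.Icc (-T₁) T₁).indicator H t) with hg
  have hgi1 : Integrable (fun t => Lc * (∑ j ∈ range (J + 1), (Mc / (W * 2 ^ j)) *
      (Set.Icc (-(W * 2 ^ (j + 1))) (W * 2 ^ (j + 1))).indicator H t)) := by
    apply Integrable.const_mul
    apply integrable_finsetSum
    intro j _
    exact (BL4_ind H hH _).const_mul _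
  have hgi2 : Integrable (fun t => Lc * (√T₁ * (Set.Icc (-T₁) T₁).indicator H t)) :=
    ((BL4_ind H hH _).const_mul _).const_mul _
  have hgi : Integrable g := hgi1.add hgi2
  have hind0 : ∀ T t, 0 ≤ (Set.Icc (-T) T).indicator H t := fun T t =>
    Set.indicator_nonneg (fun t _ => hH0 t) t
  have hg0 : ∀ t, 0 ≤ g t := by
    intro t
    refine add_nonneg (mul_nonneg hLc (Finset.sum_nonneg (fun j _ => mul_nonneg ?_ (hind0 _ _))))
      (mul_nonneg hLc (mul_nonneg (Real.sqrt_nonneg _) (hind0 _ _)))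
    positivity
  have hFg : ∀ t ∈ S, F t ≤ g t := by
    intro t ht
    refine (hFH t ht.1 ht.2).trans ?_
    obtain ⟨j, hj1, hj2, hj3⟩ := BL4_find W |t| ht.1 J (ht.2.trans hJ)
    have e1 : (Set.Icc (-T₁) T₁).indicator H t = H t :=
      Set.indicator_of_mem (hSsub ht) H
    have e2 : (Set.Icc (-(W * 2 ^ (j + 1))) (W * 2 ^ (j + 1))).indicator H t = H t :=
      Set.indicator_of_mem (Set.mem_Icc.2 (abs_le.1 hj3)) H
    have h1 : (Mc / (W * 2 ^ j)) *
        (Set.Icc (-(W * 2 ^ (j + 1))) (W * 2 ^ (j + 1))).indicator H t ≤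
        ∑ j ∈ range (J + 1), (Mc / (W * 2 ^ j)) *
        (Set.Icc (-(W * 2 ^ (j + 1))) (W * 2 ^ (j + 1))).indicator H t :=
      Finset.single_le_sum (f := fun j => (Mc / (W * 2 ^ j)) *
        (Set.Icc (-(W * 2 ^ (j + 1))) (W * 2 ^ (j + 1))).indicator H t)
        (fun j _ => mul_nonneg (by positivity) (hind0 _ _)) (Finset.mem_range.2 hj1)
    rw [e2] at h1
    have h2 : Mc / |t| * H t ≤ Mc / (W * 2 ^ j) * H t :=
      mul_le_mul_of_nonneg_right (div_le_div_of_nonneg_left hMc (by positivity) hj2) (hH0 t)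
    have h3 : √|t| * H t ≤ √T₁ * H t :=
      mul_le_mul_of_nonneg_right (Real.sqrt_le_sqrt ht.2) (hH0 t)
    have h4 : Lc * (Mc / |t| + √|t|) * H t = Lc * (Mc / |t| * H t) + Lc * (√|t| * H t) := by ring
    rw [h4]
    simp only [hg]
    rw [e1]
    exact add_le_add (mul_le_mul_of_nonneg_left (h2.trans h1) hLc)
      (mul_le_mul_of_nonneg_left h3 hLc)
  have h1 : ∫ t in S, F t ≤ ∫ t in S, g t :=
    setIntegral_mono_on ((hF.integrableOn_Icc).mono_set hSsub) hgi.integrableOn hSm hFg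
  have h2 : ∫ t in S, g t ≤ ∫ t, g t :=
    setIntegral_le_integral hgi (Filter.Eventually.of_forall hg0)
  refine (h1.trans h2).trans (le_of_eq ?_)
  simp only [hg]
  rw [integral_add hgi1 hgi2, integral_const_mul, integral_const_mul, integral_const_mul,
    BL4_indint H T₁ hT1, integral_finsetSum]
  · congr 3
    funext j
    rw [integral_const_mul, BL4_indint H _ (by positivity)]
  · intro j _
    exact (BL4_ind H hH _).const_mul _

private lemma BL4_cont (M : ℕ) (a : ℕ → ℂ) : Continuous (DPb M a) := by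
  unfold DPb nit
  fun_prop

private lemma BL4_logpow (B : ℕ) : ∃ N₀ : ℕ, ∀ N : ℕ, N₀ ≤ N →
    Real.log N ^ B ≤ (N : ℝ) ^ (1 / 1000 : ℝ) := by
  have h := isLittleO_log_rpow_rpow_atTop (B : ℝ) (show (0 : ℝ) < 1 / 1000 by norm_num)
  have h1 := (h.bound (show (0 : ℝ) < 1 by norm_num))
  have h2 := tendsto_natCast_atTop_atTop.eventually h1
  obtain ⟨N₀, h3⟩ := Filter.eventually_atTop.1 h2
  refine ⟨max N₀ 1, fun N hN => ?_⟩
  have h4 := h3 N (le_trans (le_max_left _ _) hN)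
  have h5 : (1 : ℝ) ≤ N := by exact_mod_cast le_trans (le_max_right _ _) hN
  rw [one_mul, Real.rpow_natCast, Real.norm_eq_abs, Real.norm_eq_abs,
    abs_of_nonneg (pow_nonneg (Real.log_nonneg h5) B), abs_of_nonneg (by positivity)] at h4
  exact h4

private lemma BL4_split {R : ℕ} (c b : Fin R) (hb : b ≠ c) (f : Fin R → ℝ) :
    ∏ i, f i = f c * (f b * ∏ i ∈ (univ.erase c).erase b, f i) := by
  classical
  rw [Finset.mul_prod_erase (univ.erase c) f (Finset.mem_erase.2 ⟨hb, Finset.mem_univ b⟩),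
    Finset.mul_prod_erase univ f (Finset.mem_univ c)]

/-- the bound of the mean value of the product at the height `T` -/
private lemma BL4_J (W T Mb MD LK : ℝ) (hW : 0 < W) (hT : W ≤ T) (hb : W ≤ Mb) (hD : W ≤ MD)
    (hLK : 0 ≤ LK) :
    √((T + Mb) * Mb * LK * ((T + MD) * MD * LK)) ≤ LK * (2 * T * (Mb * MD) / W) := by
  have hT0 : 0 < T := lt_of_lt_of_le hW hT
  have hb0 : 0 < Mb := lt_of_lt_of_le hW hb
  have hD0 : 0 < MD := lt_of_lt_of_le hW hD
  apply Real.sqrt_le_iff.2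
  refine ⟨by positivity, ?_⟩
  have h1 : T + Mb ≤ 2 * (T * Mb / W) := by
    have h2 : T ≤ T * Mb / W := by
      rw [le_div_iff₀ hW]
      exact mul_le_mul_of_nonneg_left hb hT0.le
    have h3 : Mb ≤ T * Mb / W := by
      rw [le_div_iff₀ hW, mul_comm]
      exact mul_le_mul_of_nonneg_right hT hb0.le
    linarith
  have h2 : T + MD ≤ 2 * (T * MD / W) := by
    have h2 : T ≤ T * MD / W := by
      rw [le_div_iff₀ hW]
      exact mul_le_mul_of_nonneg_left hD hT0.le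
    have h3 : MD ≤ T * MD / W := by
      rw [le_div_iff₀ hW, mul_comm]
      exact mul_le_mul_of_nonneg_right hT hD0.le
    linarith
  have h3 : (T + Mb) * Mb * LK * ((T + MD) * MD * LK) ≤
      (2 * (T * Mb / W)) * Mb * LK * ((2 * (T * MD / W)) * MD * LK) := by
    refine mul_le_mul ?_ ?_ (by positivity) (by positivity)
    · exact mul_le_mul_of_nonneg_right (mul_le_mul_of_nonneg_right h1 hb0.le) hLK
    · exact mul_le_mul_of_nonneg_right (mul_le_mul_of_nonneg_right h2 hD0.le) hLK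
  refine h3.trans (le_of_eq ?_)
  ring

private lemma BL4_large : ∃ N₃ : ℕ, ∀ N : ℕ, N₃ ≤ N →
    320 ≤ Real.log N ∧ (2 : ℝ) ^ 21 ≤ (N : ℝ) ^ (1 / 1000 : ℝ) := by
  have h1 := (Real.tendsto_log_atTop.comp tendsto_natCast_atTop_atTop).eventually
    (Filter.eventually_ge_atTop (320 : ℝ))
  have h2 := ((tendsto_rpow_atTop (show (0 : ℝ) < 1 / 1000 by norm_num)).comp
    tendsto_natCast_atTop_atTop).eventually (Filter.eventually_ge_atTop ((2 : ℝ) ^ 21))
  obtain ⟨N₃, h3⟩ := Filter.eventually_atTop.1 (h1.and h2)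
  exact ⟨N₃, fun N hN => h3 N hN⟩

private lemma BL4_J1 (N : ℕ) (hN : 1 ≤ N) (hL : 320 ≤ Real.log N) :
    ((2 * Nat.log 2 N + 1 : ℕ) : ℝ) + 1 ≤ 5 * Real.log N ∧
      (N : ℝ) ^ 2 ≤ 2 ^ (2 * Nat.log 2 N + 1 + 1) := by
  constructor
  · have h1 : 2 ^ Nat.log 2 N ≤ N := Nat.pow_log_le_self 2 (by omega)
    have h2 : (2 : ℝ) ^ Nat.log 2 N ≤ N := by exact_mod_cast h1
    have h3 := Real.log_le_log (by positivity) h2
    rw [Real.log_pow] at h3
    have h4 : (1 : ℝ) / 2 ≤ Real.log 2 := by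
      have := Real.log_two_gt_d9
      linarith
    have h5 : (0 : ℝ) ≤ (Nat.log 2 N : ℝ) := Nat.cast_nonneg _
    have h6 : (Nat.log 2 N : ℝ) * (1 / 2) ≤ (Nat.log 2 N : ℝ) * Real.log 2 :=
      mul_le_mul_of_nonneg_left h4 h5
    push_cast
    linarith
  · have h1 : N < 2 ^ (Nat.log 2 N + 1) := Nat.lt_pow_succ_log_self (by norm_num) N
    have h2 : N ^ 2 ≤ (2 ^ (Nat.log 2 N + 1)) ^ 2 := Nat.pow_le_pow_left h1.le 2
    have h3 : (2 ^ (Nat.log 2 N + 1)) ^ 2 = 2 ^ (2 * Nat.log 2 N + 1 + 1) := by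
      rw [← pow_mul]
      congr 1
      ring
    rw [h3] at h2
    exact_mod_cast h2

theorem BL4 (h1 : Pool.Agent.SK.MVP_stmt) : BL4_stmt := by
  classical
  intro A c
  choose K N₁ hMVP using fun R => h1 R c
  set K' := (range 18).sup K with hK'
  have hKle : ∀ R, R ≤ 17 → K R ≤ K' := fun R hR =>
    Finset.le_sup (f := K) (Finset.mem_range.2 (by omega))
  set N₁' := (range 18).sup N₁ with hN₁'
  have hNle : ∀ R, R ≤ 17 → N₁ R ≤ N₁' := fun R hR =>
    Finset.le_sup (f := N₁) (Finset.mem_range.2 (by omega))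
  refine ⟨A + c + K' + 3, fun B₁ hB₁ => ?_⟩
  obtain ⟨N₂, hN₂⟩ := BL4_logpow B₁
  obtain ⟨N₃, hN₃⟩ := BL4_large
  refine ⟨max (max N₁' 1) (max N₂ N₃), ?_⟩
  intro N hN R hR M a i₀ hM1 ha hPl hPu hMc hMle hlong hvdc
  have hNN1 : N₁' ≤ N := le_trans (le_trans (le_max_left _ _) (le_max_left _ _)) hN
  have hN1 : 1 ≤ N := le_trans (le_trans (le_max_right _ _) (le_max_left _ _)) hN
  have hNN2 : N₂ ≤ N := le_trans (le_trans (le_max_left _ _) (le_max_right _ _)) hN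
  have hNN3 : N₃ ≤ N := le_trans (le_trans (le_max_right _ _) (le_max_right _ _)) hN
  obtain ⟨hL, hx⟩ := hN₃ N hNN3
  have hWx := hN₂ N hNN2
  set L := Real.log N with hLdef
  set x := (N : ℝ) ^ (1 / 1000 : ℝ) with hxdef
  have hN0 : (0 : ℝ) ≤ N := Nat.cast_nonneg N
  have hx1 : (1 : ℝ) ≤ x := by
    have : (1 : ℝ) ≤ 2 ^ 21 := by norm_num
    linarith
  have hx0 : (0 : ℝ) < x := by linarith
  have hL1 : (1 : ℝ) ≤ L := by linarith
  have hL0 : (0 : ℝ) < L := by linarith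
  have hxN : x ^ 1000 = N := by
    rw [hxdef, ← Real.rpow_natCast, ← Real.rpow_mul hN0]
    norm_num
  have hx101 : (N : ℝ) ^ (101 / 100 : ℝ) = x ^ 1010 := by
    rw [hxdef, ← Real.rpow_natCast, ← Real.rpow_mul hN0]
    norm_num
  have hxT : (N : ℝ) ^ (1 + 2 * (1 / 200) : ℝ) = x ^ 1010 := by
    rw [← hx101]
    norm_num
  have hx3000 : (N : ℝ) ^ 3 = x ^ 3000 := by
    rw [← hxN, ← pow_mul]
  set W := L ^ B₁ with hW
  have hW1 : 1 ≤ W := one_le_pow₀ hL1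
  have hW0 : 0 < W := by linarith
  set LK := L ^ K' with hLK
  have hLK0 : 0 < LK := by positivity
  set Lc := L ^ c with hLc
  have hLc0 : 0 < Lc := by positivity
  -- the product
  have hPr : ((∏ i, M i : ℕ) : ℝ) = ∏ i, (M i : ℝ) := by push_cast; rfl
  have hPl' : x ^ 3000 ≤ 2 ^ 21 * ∏ i, (M i : ℝ) := by
    have h2 : ((N ^ 3 : ℕ) : ℝ) ≤ ((2 ^ (R + 4) * ∏ i, M i : ℕ) : ℝ) := Nat.cast_le.2 hPl
    push_cast at h2
    rw [hx3000] at h2
    refine h2.trans (mul_le_mul_of_nonneg_right ?_ (Finset.prod_nonneg fun i _ => Nat.cast_nonneg _))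
    exact pow_le_pow_right₀ (by norm_num) (by omega)
  have hPu' : ∏ i, (M i : ℝ) ≤ 8 * x ^ 3000 := by
    have h2 : ((∏ i, M i : ℕ) : ℝ) ≤ ((8 * N ^ 3 : ℕ) : ℝ) := Nat.cast_le.2 hPu
    push_cast at h2
    rw [hx3000] at h2
    exact h2
  have hMc' : (M i₀ : ℝ) ≤ x ^ 1010 := by
    rw [← hx101]
    exact hMc
  have hx80 : (N : ℝ) ^ (2 / 25 : ℝ) = x ^ 80 := by
    rw [hxdef, ← Real.rpow_natCast, ← Real.rpow_mul hN0]
    norm_num
  have hMle' : ∀ i, (M i : ℝ) ≤ x ^ 80 * M i₀ := fun i => by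
    rw [← hx80]
    exact hMle i
  obtain ⟨b, hb, hprod, hF3, hF4⟩ := BL4_comb hR M i₀ x hx hM1 hPl' hMc' hMle' hlong
  set MD : ℝ := ∏ i ∈ (univ.erase i₀).erase b, (M i : ℝ) with hMD
  have hMr : ∀ i, (1 : ℝ) ≤ M i := fun i => by exact_mod_cast hM1 i
  have hMD1 : 1 ≤ MD := by
    have h2 : ∏ i ∈ (univ.erase i₀).erase b, (1 : ℝ) ≤ MD :=
      Finset.prod_le_prod (fun _ _ => by norm_num) (fun i _ => hMr i)
    simpa using h2
  rw [hprod] at hPl' hPu'
  obtain ⟨hbx, hDx, hnum⟩ := BL4_num x (M i₀) (M b) MD hx (hMr i₀) (hMr b) hMD1 hPl' hMc'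
    (hMle' b) hF3 hF4
  set P : ℝ := (M i₀ : ℝ) * (M b * MD) with hPdef
  have hP0 : 0 < P := by
    have := hMr i₀
    have := hMr b
    positivity
  -- mean values
  have hmv := hMVP R N (le_trans (hNle R hR) hNN1) M a hM1 (hPu.trans (by
    have : 0 ≤ N ^ 3 := Nat.zero_le _
    omega)) ha
  have hKR : L ^ K R ≤ LK := pow_le_pow_right₀ hL1 (hKle R hR)
  set f : ℝ → ℝ := fun t => ‖DPb (M b) (a b) t‖ with hf
  set g : ℝ → ℝ := fun t => ‖∏ i ∈ (univ.erase i₀).erase b, DPb (M i) (a i) t‖ with hg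
  have hfc : Continuous f := (BL4_cont _ _).norm
  have hgc : Continuous g := (continuous_finsetProd _ (fun i _ => BL4_cont _ _)).norm
  have hJ : ∀ T : ℝ, 1 ≤ T → ∫ t in (-T)..T, f t * g t ≤
      √((T + M b) * M b * LK * ((T + MD) * MD * LK)) := by
    intro T hT
    have hMb0 := hMr b
    apply BL4_cs f g hfc hgc T _ _ (by linarith) (by positivity) (by positivity)
    · have h2 := hmv {b} T hT
      simp only [Finset.prod_singleton] at h2
      refine h2.trans ?_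
      exact mul_le_mul_of_nonneg_left hKR (by positivity)
    · have h2 := hmv ((univ.erase i₀).erase b) T hT
      have h3 : ((∏ i ∈ (univ.erase i₀).erase b, M i : ℕ) : ℝ) = MD := by
        rw [hMD]
        push_cast
        rfl
      rw [h3] at h2
      refine h2.trans ?_
      exact mul_le_mul_of_nonneg_left hKR (by positivity)
  -- the integral
  have hset : Tset (1 / 200) B₁ N = {t : ℝ | W ≤ |t| ∧ |t| ≤ x ^ 1010} := by
    unfold Tset
    rw [hxT]
  rw [hset]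
  obtain ⟨hJ1, hJ2⟩ := BL4_J1 N hN1 hL
  have hTJ : x ^ 1010 ≤ W * 2 ^ (2 * Nat.log 2 N + 1 + 1) := by
    have h2 : x ^ 1010 ≤ (N : ℝ) ^ 2 := by
      rw [← hxN, ← pow_mul]
      exact pow_le_pow_right₀ hx1 (by norm_num)
    refine h2.trans (hJ2.trans ?_)
    exact le_mul_of_one_le_left (by positivity) hW1
  have hint := BL4_int W (x ^ 1010) Lc (M i₀) hW1 hLc0.le (Nat.cast_nonneg _) (by positivity)
    (2 * Nat.log 2 N + 1) hTJ (fun t => ∏ i, ‖DPb (M i) (a i) t‖) (fun t => f t * g t)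
    (continuous_finsetProd _ (fun i _ => (BL4_cont _ _).norm)) (hfc.mul hgc)
    (fun t => mul_nonneg (norm_nonneg _) (norm_nonneg _)) (by
      intro t ht1 _
      rw [BL4_split i₀ b hb (fun i => ‖DPb (M i) (a i) t‖)]
      have h2 := hvdc t (hW1.trans ht1)
      have h3 : f t * g t = ‖DPb (M b) (a b) t‖ *
          ∏ i ∈ (univ.erase i₀).erase b, ‖DPb (M i) (a i) t‖ := by
        simp only [hf, hg, norm_prod]
      rw [h3]
      exact mul_le_mul_of_nonneg_right h2 (mul_nonneg (norm_nonneg _)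
        (Finset.prod_nonneg fun i _ => norm_nonneg _)))
  refine hint.trans ?_
  -- the first part
  have hWb : W ≤ M b := hWx.trans hbx
  have hWD : W ≤ MD := hWx.trans hDx
  have hfirst : ∑ j ∈ range (2 * Nat.log 2 N + 1 + 1), ((M i₀ : ℝ) / (W * 2 ^ j)) *
      ∫ t in (-(W * 2 ^ (j + 1)))..(W * 2 ^ (j + 1)), f t * g t ≤ 5 * L * (4 * LK * P / W) := by
    have h2 : ∀ j ∈ range (2 * Nat.log 2 N + 1 + 1), ((M i₀ : ℝ) / (W * 2 ^ j)) *
        ∫ t in (-(W * 2 ^ (j + 1)))..(W * 2 ^ (j + 1)), f t * g t ≤ 4 * LK * P / W := by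
      intro j _
      have h3 : W ≤ W * 2 ^ (j + 1) := le_mul_of_one_le_right hW0.le (one_le_pow₀ (by norm_num))
      have h4 := (hJ (W * 2 ^ (j + 1)) (hW1.trans h3)).trans
        (BL4_J W (W * 2 ^ (j + 1)) (M b) MD LK hW0 h3 hWb hWD hLK0.le)
      have h5 := mul_le_mul_of_nonneg_left h4 (show (0 : ℝ) ≤ (M i₀ : ℝ) / (W * 2 ^ j) by positivity)
      refine h5.trans (le_of_eq ?_)
      rw [hPdef, pow_succ]
      field_simp
      ring
    have h3 := Finset.sum_le_card_nsmul _ _ _ h2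
    rw [Finset.card_range, nsmul_eq_mul] at h3
    refine h3.trans (mul_le_mul_of_nonneg_right ?_ (by positivity))
    push_cast at hJ1 ⊢
    exact hJ1
  -- the second part
  have hsecond : √(x ^ 1010) * ∫ t in (-(x ^ 1010))..(x ^ 1010), f t * g t ≤ LK * (P / x ^ 50) := by
    have h2 := hJ (x ^ 1010) (one_le_pow₀ hx1)
    have h3 := mul_le_mul_of_nonneg_left h2 (Real.sqrt_nonneg (x ^ 1010))
    refine h3.trans ?_
    rw [← Real.sqrt_mul (by positivity)]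
    have hMb0 := hMr b
    apply Real.sqrt_le_iff.2
    refine ⟨by positivity, ?_⟩
    have h4 : x ^ 1010 * ((x ^ 1010 + M b) * M b * LK * ((x ^ 1010 + MD) * MD * LK)) =
        LK ^ 2 * (x ^ 1010 * ((x ^ 1010 + M b) * M b * ((x ^ 1010 + MD) * MD))) := by ring
    have h5 : (LK * (P / x ^ 50)) ^ 2 = LK ^ 2 * (P ^ 2 / x ^ 100) := by
      have h6 : (x ^ 50) ^ 2 = x ^ 100 := by rw [← pow_mul]
      rw [mul_pow, div_pow, h6]
    rw [h4, h5]
    refine mul_le_mul_of_nonneg_left ?_ (by positivity)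
    rw [le_div_iff₀ (by positivity), mul_comm]
    exact hnum
  -- conclusion
  have hLA0 : 0 < L ^ A := by positivity
  have hx3 : (0 : ℝ) < x ^ 3000 := by positivity
  have hconc1 : Lc * (5 * L * (4 * LK * P / W)) ≤ (N : ℝ) ^ 3 / L ^ A / 2 := by
    rw [hx3000]
    have h2 : Lc * (5 * L * (4 * LK * P / W)) ≤ Lc * (5 * L * (4 * LK * (8 * x ^ 3000) / W)) := by
      gcongr
    refine h2.trans ?_
    have h3 : 320 * (L ^ A * Lc * LK * L) ≤ W := by
      have h4 : W = L ^ (B₁ - (A + c + K' + 1)) * (L ^ A * Lc * LK * L) := by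
        rw [hW, hLc, hLK, ← pow_add, ← pow_add, ← pow_succ, ← pow_add]
        congr 1
        omega
      rw [h4]
      refine mul_le_mul_of_nonneg_right ?_ (by positivity)
      have h5 : L ^ 1 ≤ L ^ (B₁ - (A + c + K' + 1)) := pow_le_pow_right₀ hL1 (by omega)
      rw [pow_one] at h5
      linarith
    rw [div_div, le_div_iff₀ (by positivity)]
    have h4 : Lc * (5 * L * (4 * LK * (8 * x ^ 3000) / W)) * (L ^ A * 2) =
        x ^ 3000 * (320 * (L ^ A * Lc * LK * L) / W) := by ring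
    rw [h4]
    have h5 : 320 * (L ^ A * Lc * LK * L) / W ≤ 1 := (div_le_one hW0).2 h3
    nlinarith
  have hconc2 : Lc * (LK * (P / x ^ 50)) ≤ (N : ℝ) ^ 3 / L ^ A / 2 := by
    rw [hx3000]
    have h2 : Lc * (LK * (P / x ^ 50)) ≤ Lc * (LK * ((8 * x ^ 3000) / x ^ 50)) := by
      gcongr
    refine h2.trans ?_
    have h3 : 16 * (L ^ A * Lc * LK) ≤ x ^ 50 := by
      have h4 : L ^ A * Lc * LK ≤ x := by
        refine le_trans ?_ hWx
        rw [hW, hLc, hLK, ← pow_add, ← pow_add]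
        exact pow_le_pow_right₀ hL1 (by omega)
      have h5 : x ^ 2 ≤ x ^ 50 := pow_le_pow_right₀ hx1 (by norm_num)
      have h6 : 16 * x ≤ x ^ 2 := by nlinarith
      linarith
    rw [div_div, le_div_iff₀ (by positivity)]
    have h4 : Lc * (LK * ((8 * x ^ 3000) / x ^ 50)) * (L ^ A * 2) =
        x ^ 3000 * (16 * (L ^ A * Lc * LK) / x ^ 50) := by ring
    rw [h4]
    have h5 : 16 * (L ^ A * Lc * LK) / x ^ 50 ≤ 1 := (div_le_one (by positivity)).2 h3
    nlinarith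
  have h2 := mul_le_mul_of_nonneg_left hfirst hLc0.le
  have h3 := mul_le_mul_of_nonneg_left hsecond hLc0.le
  have h4 : (N : ℝ) ^ 3 / L ^ A = (N : ℝ) ^ 3 / L ^ A / 2 + (N : ℝ) ^ 3 / L ^ A / 2 := by ring
  rw [h4]
  exact add_le_add (h2.trans hconc1) (h3.trans hconc2)

end Pool.Agent.XE
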